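import Pool.Agent.N356.SP.DefsK

set_option autoImplicit false

/-! # Project LK (helper356), GK20a: the real inequality along the curve -/

namespace Pool.Agent.N286.LK

open Pool.Agent.N356.SP

theorem Nb_nonneg {κ X : ℝ} (hκ0 : 0 ≤ κ) (hκ1 : κ ≤ 1 / 6) (hX : 0 ≤ X) : 0 ≤ Nb κ X := by
  unfold Nb
  have h1 : 0 ≤ 2 - 7 * κ / 4 := by linarith
  have h2 : 0 ≤ 1 - 7 * κ / 4 := by linarith
  have h3 : 0 ≤ 4 - 7 * κ / 2 := by linarith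
  have h4 : 0 ≤ 2 - 7 * κ / 8 := by linarith
  positivity

/-- GK20a with the statements GK17 (`E1`) and GK18 (`E2`) as hypotheses -/
theorem curveK_of
    (E1 : ∀ {η s y : ℝ} (_ : 0 < η) (_ : η ≤ 1 / 6) (_ : 0 ≤ s) (_ : 2 * s + η ≤ 1)
      (_ : 0 ≤ y) (_ : y ≤ 11 / 50),
      Real.exp (y / 2 - 3 / 20 * y ^ 3) * (1 + (1 - η) * y) ^ ((1 / 2 + s) / (1 - η)) ≤
        (1 - η * y) ^ (-(s / η)) + y * (1 + y / 2))
    (E2 : ∀ {κ ξ : ℝ} (_ : 0 ≤ κ) (_ : κ ≤ 1 / 6) (_ : 0 ≤ ξ) (_ : ξ ≤ 13 / 10),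
      Nb κ (ξ * (1 + κ * ξ / 2) ^ 2) ≤ Real.exp (ξ - 3 / 10 * κ ^ 2 * ξ ^ 3))
    {k n : ℕ} (hk : 6 ≤ k) (hn : k ≤ n) {b : ℝ} (hb0 : 0 < b) (hb1 : 1 ≤ ((n:ℝ) - 1) * b)
    (hb2 : (1 - 1 / (n : ℝ)) * b ≤ 1) {y : ℝ} (hy0 : 0 ≤ y) (hy1 : y ≤ 13 / (10 * k)) :
    (1 + (1 - 1 / (n:ℝ)) * y) ^ ((1 + b) / 2) *
        Nb (1 / k) (k * y * (1 + y / 2) ^ 2) ^ ((1:ℝ) / (2 * k)) ≤
      (1 - y / n) ^ (-((((n:ℝ) - 1) * b - 1) / 2)) + y * (1 + y / 2) := by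
  have hk6 : (6 : ℝ) ≤ k := by exact_mod_cast hk
  have hkn : (k : ℝ) ≤ n := by exact_mod_cast hn
  have hk0 : (0 : ℝ) < k := by linarith
  have hn0 : (0 : ℝ) < n := by linarith
  have hη1 : 1 / (n : ℝ) ≤ 1 / 6 := by
    apply one_div_le_one_div_of_le <;> linarith
  have hκ1 : 1 / (k : ℝ) ≤ 1 / 6 := by
    apply one_div_le_one_div_of_le <;> linarith
  have hky : (k : ℝ) * y ≤ 13 / 10 := by
    have := mul_le_mul_of_nonneg_left hy1 hk0.le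
    have e : (k : ℝ) * (13 / (10 * k)) = 13 / 10 := by
      field_simp
    linarith
  have hy2 : y ≤ 11 / 50 := by nlinarith
  obtain ⟨s, hs⟩ : ∃ s : ℝ, s = (((n : ℝ) - 1) * b - 1) / (2 * n) := ⟨_, rfl⟩
  have hs0 : 0 ≤ s := by
    rw [hs]
    apply div_nonneg <;> linarith
  have hs1 : 2 * s + 1 / (n : ℝ) ≤ 1 := by
    have e : 2 * s + 1 / (n : ℝ) = (1 - 1 / (n : ℝ)) * b := by
      rw [hs]
      field_simp
      ring
    rw [e]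
    exact hb2
  have hn1 : (n : ℝ) - 1 ≠ 0 := by
    have : (0 : ℝ) < n - 1 := by linarith
    exact this.ne'
  have h1 := E1 (η := 1 / (n : ℝ)) (s := s) (y := y) (by positivity) hη1 hs0 hs1 hy0 hy2
  have e1 : (1 / 2 + s) / (1 - 1 / (n : ℝ)) = (1 + b) / 2 := by
    have h2 : 1 - 1 / (n : ℝ) ≠ 0 := by
      have : (0 : ℝ) < 1 - 1 / n := by linarith
      exact this.ne'
    rw [div_eq_iff h2, hs]
    field_simp
    ring
  have e2 : s / (1 / (n : ℝ)) = (((n:ℝ) - 1) * b - 1) / 2 := by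
    rw [hs]
    field_simp
  have e3 : 1 / (n : ℝ) * y = y / n := by ring
  rw [e1, e2, e3] at h1
  have h2 := E2 (κ := 1 / (k : ℝ)) (ξ := k * y) (by positivity) hκ1 (by positivity) hky
  have e4 : (1 / (k : ℝ)) * (k * y) / 2 = y / 2 := by
    field_simp
  rw [e4] at h2
  have h3 : 0 ≤ Nb (1 / (k : ℝ)) (k * y * (1 + y / 2) ^ 2) :=
    Nb_nonneg (by positivity) hκ1 (by positivity)
  have h4 : Nb (1 / (k : ℝ)) (k * y * (1 + y / 2) ^ 2) ^ ((1:ℝ) / (2 * k)) ≤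
      Real.exp (y / 2 - 3 / 20 * y ^ 3) := by
    refine (Real.rpow_le_rpow h3 h2 (by positivity)).trans (le_of_eq ?_)
    rw [← Real.exp_mul]
    congr 1
    field_simp
    ring
  have h5 : 0 ≤ (1 + (1 - 1 / (n:ℝ)) * y) ^ ((1 + b) / 2) := by
    apply Real.rpow_nonneg
    have : 0 ≤ (1 - 1 / (n:ℝ)) * y := mul_nonneg (by linarith) hy0
    linarith
  calc _ ≤ (1 + (1 - 1 / (n:ℝ)) * y) ^ ((1 + b) / 2) * Real.exp (y / 2 - 3 / 20 * y ^ 3) :=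
        mul_le_mul_of_nonneg_left h4 h5
    _ = Real.exp (y / 2 - 3 / 20 * y ^ 3) * (1 + (1 - 1 / (n:ℝ)) * y) ^ ((1 + b) / 2) :=
        mul_comm _ _
    _ ≤ _ := h1

end Pool.Agent.N286.LK
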