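import Pool.Agent.N356.SP.DefsK
import Pool.Agent.N645.LS.L7a
import Pool.Agent.N263.LS.KS9
import Pool.Agent.N97.LS.KS8

set_option autoImplicit false

/-! # Project LK (helper356), GK8: the class inequality for functions -/

namespace Pool.Agent.N286.LK

open Finset Pool.Agent.H384R3.SPk Pool.Agent.N356.SP Pool.Agent.N645.LS Pool.Agent.N263.LS

variable {m : ℕ} {C : Finset (ZMod m)} {θ : ZMod m → ZMod m → ℝ} {g f : ℤ →₀ ℝ}

/-- evaluation of `pK` at a point -/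
theorem pK_apply (k : ℕ) {μ t : C(ℝ, ℂ)} {u v : ℝ → ℝ} (hμ : ∀ x, μ x = (u x : ℂ))
    (ht : ∀ x, t x = (v x : ℂ)) (x : ℝ) : pK k μ t x = ((pK k (u x) (v x) : ℝ) : ℂ) := by
  unfold pK
  rw [ContinuousMap.sum_apply, Complex.ofReal_sum]
  refine sum_congr rfl fun j _ => ?_
  rw [ContinuousMap.smul_apply, ContinuousMap.mul_apply, ContinuousMap.pow_apply,
    ContinuousMap.pow_apply, hμ, ht, smul_eq_mul, Complex.real_smul]
  push_cast
  ring

/-- GK8 with the statement GK7b (`L_pK`) as hypothesis -/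
theorem pK_int_of
    (HL : ∀ {m : ℕ} {K : Cone (ZMod m) C(ℝ, ℂ)} {L : C(ℝ, ℂ) →ₗ[ℝ] ℝ} {C : Finset (ZMod m)}
      {θ : ZMod m → ZMod m → ℝ} {φ : ZMod m → C(ℝ, ℂ)} (_ : IsFun K L) (_ : GoodC C θ)
      (_ : ∀ c, φ c ∈ K.P c) {k : ℕ} (_ : OrdC k C),
      lam k * L (pK k (muA C φ) ((16 / 81 : ℝ) • wA C θ φ)) ≤ L (fA C φ ^ (2 * k)))
    (h : GoodC C θ) {k : ℕ} (ho : OrdC k C) (hf0 : ∀ n, 0 ≤ f n)
    (hf : ∀ n ∈ f.support, ((n : ℤ) : ZMod m) ∈ C) :
    lam k * (∫ x in (0:ℝ)..1, pK k (muf C f x) (16 / 81 * wf C θ f x)) ≤ Mc k f := by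
  obtain ⟨K, L, hL, hLF, hex⟩ := Pool.Agent.N97.LS.exists_cone m
  choose φ hφ hφx using hex f hf0
  have key := HL hL h hφ ho
  have e1 : L (pK k (muA C φ) ((16 / 81 : ℝ) • wA C θ φ)) =
      ∫ x in (0:ℝ)..1, pK k (muf C f x) (16 / 81 * wf C θ f x) := by
    rw [hLF]
    refine re_int fun x => ?_
    refine pK_apply k (u := fun x => muf C f x) (v := fun x => 16 / 81 * wf C θ f x)
      (fun x => muA_apply hφx x) (fun x => ?_) x
    rw [ContinuousMap.smul_apply, wA_apply h.neg h.even hφx, Complex.real_smul]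
    push_cast
    ring
  have e4 : L (fA C φ ^ (2 * k)) = Mc k f := by
    rw [hLF]
    unfold Mc
    refine re_int fun x => ?_
    rw [ContinuousMap.pow_apply, fA_apply h.neg hf hφx, Complex.ofReal_pow]
  rw [e1, e4] at key
  exact key

end Pool.Agent.N286.LK
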